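import Pool.Agent.MQG.StmtsH

/-!
# Row HSM of squad MQG: Gaussian means of states
-/

set_option autoImplicit false

namespace Pool.Agent.MQG.H46

open scoped InnerProductSpace InnerProduct Topology
open Complex Filter MeasureTheory Pool.Agent.MQG

variable {κ ι : Type}

lemma norm_asl_sub (U : Op (κ × ι)) (u y u' y' : L2 ι) :
    ‖asl U u y - asl U u' y'‖ = ‖sl U u y - sl U u' y'‖ := by
  rw [← norm_val, map_sub, val_asl, val_asl]

lemma continuous_asl (U : Op (κ × ι)) {f g : ℝ → L2 ι}
    (hf : Continuous f) (hg : Continuous g) : Continuous fun t => asl U (f t) (g t) := by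
  rw [continuous_iff_continuousAt]
  intro t0
  have h1 : Continuous fun t => slL U (f t) (g t) := ((slL U).continuous.comp hf).clm_apply hg
  have h2 : Tendsto (fun t => ‖sl U (f t) (g t) - sl U (f t0) (g t0)‖) (𝓝 t0) (𝓝 0) :=
    tendsto_iff_norm_sub_tendsto_zero.mp (h1.tendsto t0)
  apply tendsto_iff_norm_sub_tendsto_zero.mpr
  refine h2.congr fun t => ?_
  exact (norm_asl_sub U _ _ _ _).symm

lemma gk_zero_ofReal (t : ℝ) : gk 0 0 t = ((‖gk 0 0 t‖ : ℝ) : ℂ) := by
  rw [norm_gk, gk]
  simp

theorem hsm (hTH : HthStmt) (hDNS : DnsStmt) : HsmStmt := by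
  intro ι M κ WW hU μ hμ
  choose θ hθ using hTH ι M κ WW hU
  have hVc : ∀ ξ : L2 ι, Continuous fun t : ℝ => M.V (-t) ξ := fun ξ =>
    (M.V_group.cont ξ).comp continuous_neg
  have hn : ∀ (t : ℝ) (a : Al WW), ‖θ t a‖ ≤ ‖a‖ := fun t a =>
    NonUnitalStarAlgHom.norm_apply_le (θ t) a
  -- continuity
  have hc0 : ∀ a ∈ Submodule.span ℂ {a : Al WW | ∃ u y, a = asl WW u y},
      Continuous fun t => θ t a := by
    intro a ha
    induction ha using Submodule.span_induction with
    | mem x hx =>
      obtain ⟨u, y, rfl⟩ := hx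
      have : (fun t => θ t (asl WW u y)) = fun t => asl WW (M.V (-t) u) (M.V (-t) y) :=
        funext fun t => hθ t u y
      rw [this]
      exact continuous_asl WW (hVc u) (hVc y)
    | zero =>
      have : (fun t => θ t (0 : Al WW)) = fun _ => 0 := funext fun t => map_zero _
      rw [this]
      exact continuous_const
    | add x y _ _ hx hy =>
      have : (fun t => θ t (x + y)) = fun t => θ t x + θ t y := funext fun t => map_add _ _ _
      rw [this]
      exact hx.add hy
    | smul c x _ hx =>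
      have : (fun t => θ t (c • x)) = fun t => c • θ t x := funext fun t => map_smul _ _ _
      rw [this]
      exact hx.const_smul c
  have hc : ∀ a : Al WW, Continuous fun t => θ t a := by
    intro a
    apply continuous_of_uniform_approx_of_continuous
    intro V hV
    obtain ⟨ε, hε, hεV⟩ := Metric.mem_uniformity_dist.mp hV
    obtain ⟨b, hb, hab⟩ := Metric.dense_iff.mp (hDNS ι M κ WW hU.adapted) a ε hε
    refine ⟨fun t => θ t b, hc0 b hab, fun t => hεV ?_⟩
    rw [dist_eq_norm, ← map_sub]
    refine (hn t _).trans_lt ?_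
    rw [← dist_eq_norm, dist_comm]
    exact hb
  have hμc : ∀ a : Al WW, Continuous fun t => μ (θ t a) := fun a => μ.continuous.comp (hc a)
  have hμn : ∀ (a : Al WW) (t : ℝ), ‖μ (θ t a)‖ ≤ ‖a‖ := fun a t => by
    refine (μ.le_opNorm _).trans ?_
    rw [hμ.1, one_mul]
    exact hn t a
  have hint : ∀ a : Al WW, Integrable fun t => gk 0 0 t • μ (θ t a) := by
    intro a
    refine Integrable.mono' ((integrable_gk 0 0).norm.mul_const ‖a‖)
      ((continuous_gk 0 0).smul (hμc a)).aestronglyMeasurable
      (Eventually.of_forall fun t => ?_)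
    rw [norm_smul]
    exact mul_le_mul_of_nonneg_left (hμn a t) (norm_nonneg _)
  set ρ : Du WW := LinearMap.mkContinuous
    { toFun := fun a => ∫ t : ℝ, gk 0 0 t • μ (θ t a)
      map_add' := fun a b => by
        rw [← integral_add (hint a) (hint b)]
        simp only [map_add, smul_add]
      map_smul' := fun c a => by
        rw [RingHom.id_apply, ← integral_smul]
        simp only [map_smul, smul_comm c] } 1 (fun a => by
      change ‖∫ t : ℝ, gk 0 0 t • μ (θ t a)‖ ≤ 1 * ‖a‖
      refine (norm_integral_le_integral_norm _).trans ?_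
      rw [← integral_norm_gk_zero 0, ← integral_mul_const]
      refine integral_mono (hint a).norm ((integrable_gk 0 0).norm.mul_const _) fun t => ?_
      change ‖gk 0 0 t • μ (θ t a)‖ ≤ ‖gk 0 0 t‖ * ‖a‖
      rw [norm_smul]
      exact mul_le_mul_of_nonneg_left (hμn a t) (norm_nonneg _)) with hρ
  have hρa : ∀ a, ρ a = ∫ t : ℝ, gk 0 0 t • μ (θ t a) := fun a => rfl
  refine ⟨ρ, LinearMap.mkContinuous_norm_le _ zero_le_one _, fun a => ?_, fun u y => ?_⟩
  · have h1 : ∀ t : ℝ, ∃ r : ℝ, 0 ≤ r ∧ μ (θ t (star a * a)) = (r : ℂ) := by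
      intro t
      rw [map_mul, map_star]
      exact hμ.2 (θ t a)
    choose r hr hr' using h1
    refine ⟨∫ t : ℝ, ‖gk 0 0 t‖ * r t, integral_nonneg fun t => mul_nonneg (norm_nonneg _) (hr t), ?_⟩
    rw [hρa, ← integral_complex_ofReal]
    congr 1
    funext t
    rw [hr' t, gk_zero_ofReal t, smul_eq_mul, Complex.ofReal_mul, Complex.norm_real, norm_norm]
  · rw [inner_lam, hρa]
    congr 1
    funext t
    rw [hθ t u y, inner_lam]

end Pool.Agent.MQG.H46
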